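import Mathlib
import Pool.Agent.H892.KT.Stm

/-!
# Project KT (helper892), task QUOT
-/

set_option autoImplicit false

open Filter Topology Set Asymptotics

namespace Pool.Agent.H200.KT

open Pool.Agent.H892.KT

theorem t_QUOT : S_QUOT := by
  intro V hV g b hg hb hle y hy
  have hVy : V ∈ 𝓝 y := hV.mem_nhds hy
  have hgy : DifferentiableAt ℂ g y := hg.differentiableAt hVy
  have hby : DifferentiableAt ℂ b y := hb.differentiableAt hVy
  apply DifferentiableAt.differentiableWithinAt
  by_cases h0 : b y = 0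
  · have hq : ∀ z ∈ V, ‖g z / b z‖ ≤ ‖b z‖ ^ 2 := by
      intro z hz
      by_cases hz0 : b z = 0
      · rw [hz0, div_zero, norm_zero]
        positivity
      · rw [norm_div, div_le_iff₀ (norm_pos_iff.2 hz0)]
        calc ‖g z‖ ≤ ‖b z‖ ^ 3 := hle z hz
          _ = ‖b z‖ ^ 2 * ‖b z‖ := by ring
    have h1 : (fun z => b z) =O[𝓝 y] fun z => z - y := by
      have h2 := hby.isBigO_sub
      simp only [h0, sub_zero] at h2
      exact h2
    have h2 : (fun z => g z / b z) =O[𝓝 y] fun z => ‖z - y‖ ^ 2 := by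
      have h3 : (fun z => g z / b z) =O[𝓝 y] fun z => ‖b z‖ ^ 2 := by
        apply IsBigO.of_bound 1
        filter_upwards [hVy] with z hz
        rw [one_mul, Real.norm_of_nonneg (by positivity)]
        exact hq z hz
      exact h3.trans (h1.norm_norm.pow 2)
    have h4 : (fun z : ℂ × ℂ => ‖z - y‖ ^ 2) =o[𝓝 y] fun z => z - y := by
      have h5 : (fun z : ℂ × ℂ => ‖z - y‖) =o[𝓝 y] fun _ => (1 : ℝ) := by
        rw [isLittleO_one_iff]
        have : Tendsto (fun z : ℂ × ℂ => ‖z - y‖) (𝓝 y) (𝓝 ‖y - y‖) :=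
          (continuous_id.sub continuous_const).norm.tendsto y
        simpa using this
      have h6 : (fun z : ℂ × ℂ => ‖z - y‖ * ‖z - y‖) =o[𝓝 y] fun z => (1 : ℝ) * ‖z - y‖ :=
        h5.mul_isBigO (isBigO_refl _ _)
      simp only [one_mul] at h6
      have h7 : (fun z : ℂ × ℂ => ‖z - y‖ ^ 2) = fun z => ‖z - y‖ * ‖z - y‖ := by
        funext z
        ring
      rw [h7]
      exact h6.of_norm_right
    have h8 : HasFDerivAt (fun z => g z / b z) (0 : ℂ × ℂ →L[ℂ] ℂ) y := by
      rw [hasFDerivAt_iff_isLittleO]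
      have e : (fun z => g z / b z - g y / b y - (0 : ℂ × ℂ →L[ℂ] ℂ) (z - y)) =
          fun z => g z / b z := by
        funext z
        rw [h0, div_zero, sub_zero]
        simp
      rw [e]
      exact h2.trans_isLittleO h4
    exact h8.differentiableAt
  · have h1 : DifferentiableAt ℂ (fun z => (b z)⁻¹) y := hby.fun_inv h0
    have h2 : DifferentiableAt ℂ (fun z => g z * (b z)⁻¹) y := hgy.fun_mul h1
    simp only [div_eq_mul_inv]
    exact h2

end Pool.Agent.H200.KT
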